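import Pool.Agent.U167.SA.Stm7
import Pool.Agent.U97.SA.PERC

/-!
Project SA, package FUB: decomposition over the configurations in the inner box and outside the
outer box.
-/

set_option autoImplicit false

namespace Pool.Agent.U669.SA

open H974 Filter Topology MeasureTheory
open Pool.Agent.U167.SA Pool.Agent.U97.SA

abbrev Om := Edg → Bool

open Classical in
/-- `ω'` on `S` and `ω` outside `S` -/
noncomputable def glue (S : Finset Edg) (p : Om × Om) : Om := fun e => if e ∈ S then p.2 e else p.1 e

theorem measurable_glue (S : Finset Edg) : Measurable (glue S) := by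
  apply measurable_pi_lambda
  intro e
  unfold glue
  split_ifs
  · exact (measurable_pi_apply e).comp measurable_snd
  · exact (measurable_pi_apply e).comp measurable_fst

theorem mp_glue (S : Finset Edg) : MeasurePreserving (glue S) (percE.prod percE) percE := by
  classical
  refine ⟨measurable_glue S, ?_⟩
  have key : (percE.prod percE).map (glue S) = Measure.infinitePi (fun _ : Edg =>
      (PMF.uniformOfFintype Bool).toMeasure) := by
    apply Measure.eq_infinitePi
    intro s t ht
    have h1 : MeasurableSet (Set.pi (s : Set Edg) t) :=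
      MeasurableSet.pi s.countable_toSet (fun e he => ht e)
    rw [Measure.map_apply (measurable_glue S) h1]
    have h2 : glue S ⁻¹' (Set.pi (s : Set Edg) t) =
        (Set.pi ((s \ S : Finset Edg) : Set Edg) t) ×ˢ (Set.pi ((s ∩ S : Finset Edg) : Set Edg) t) := by
      ext p
      simp only [Set.mem_preimage, Set.mem_pi, Set.mem_prod, Finset.mem_coe, Finset.mem_sdiff,
        Finset.mem_inter]
      constructor
      · intro h
        refine ⟨fun e he => ?_, fun e he => ?_⟩
        · have := h e he.1
          unfold glue at this
          rwa [if_neg he.2] at this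
        · have := h e he.1
          unfold glue at this
          rwa [if_pos he.2] at this
      · rintro ⟨ha, hb⟩ e he
        unfold glue
        split_ifs with hS
        · exact hb e ⟨he, hS⟩
        · exact ha e ⟨he, hS⟩
    rw [h2, Measure.prod_prod]
    unfold percE
    rw [Measure.infinitePi_pi _ (fun e _ => ht e), Measure.infinitePi_pi _ (fun e _ => ht e),
      mul_comm, Finset.prod_inter_mul_prod_sdiff]
  exact key

/-- the event does not depend on the edges of `S` -/
def Off (S : Finset Edg) (B : Set Om) : Prop :=
  ∀ ω ω' : Om, (∀ e ∉ S, ω e = ω' e) → (ω ∈ B ↔ ω' ∈ B)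

theorem indep (S F : Finset Edg) (hF : F ⊆ S) (B : Set Om) (hB : MeasurableSet B) (h : Off S B) :
    percE (cell S F ∩ B) = percE (cell S F) * percE B := by
  classical
  have h1 := (mp_glue S).measure_preimage ((meas_cell hF).inter hB).nullMeasurableSet
  have h2 : glue S ⁻¹' (cell S F ∩ B) = B ×ˢ cell S F := by
    ext p
    simp only [Set.mem_preimage, Set.mem_inter_iff, Set.mem_prod]
    have e1 : glue S p ∈ B ↔ p.1 ∈ B := by
      apply h
      intro e he
      unfold glue
      rw [if_neg he]
    have e2 : glue S p ∈ cell S F ↔ p.2 ∈ cell S F := by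
      have : op S (glue S p) = op S p.2 := by
        ext e
        rw [mem_op, mem_op]
        unfold glue
        constructor
        · rintro ⟨ha, hb⟩
          rw [if_pos ha] at hb
          exact ⟨ha, hb⟩
        · rintro ⟨ha, hb⟩
          rw [if_pos ha]
          exact ⟨ha, hb⟩
      show op S (glue S p) = F ↔ op S p.2 = F
      rw [this]
    rw [e1, e2, and_comm]
  rw [← h1, h2, Measure.prod_prod, mul_comm]

/-- measurability of connections -/
theorem meas_reach (G : Set Edg) (u v : Vtx) :
    MeasurableSet {ω : Om | Reach ({e | ω e = true} ∩ G) u v} := by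
  have h : {ω : Om | Reach ({e | ω e = true} ∩ G) u v} =
      ⋃ M : ℕ, {ω : Om | Reach ((↑(op (boxE M) ω) : Set Edg) ∩ G) u v} := by
    ext ω
    rw [Set.mem_iUnion]
    constructor
    · intro h
      exact reach_fin G ω h
    · rintro ⟨M, hM⟩
      exact hM.mono (Set.inter_subset_inter_left _ (fun e he => (mem_op.1 (Finset.mem_coe.1 he)).2))
  rw [h]
  exact MeasurableSet.iUnion fun M =>
    meas_event (boxE M) (fun F => Reach ((↑F : Set Edg) ∩ G) u v)

theorem meas_Cj (G : Set Edg) (A T : Set Vtx) :
    MeasurableSet {ω : Om | Cj ({e | ω e = true} ∩ G) A T} := by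
  have h : {ω : Om | Cj ({e | ω e = true} ∩ G) A T} =
      ⋃ u ∈ A, ⋃ v ∈ T, {ω : Om | Reach ({e | ω e = true} ∩ G) u v} := by
    ext ω
    simp only [Set.mem_iUnion, Set.mem_setOf_eq, Cj, exists_prop]
  rw [h]
  exact MeasurableSet.biUnion (Set.to_countable A) fun u _ =>
    MeasurableSet.biUnion (Set.to_countable T) fun v _ => meas_reach G u v

theorem meas_Jn (G : Set Edg) (L : List (Set Vtx × Set Vtx)) :
    MeasurableSet {ω : Om | Jn ({e | ω e = true} ∩ G) L} := by
  induction L with
  | nil =>
    have : {ω : Om | Jn ({e | ω e = true} ∩ G) []} = Set.univ := by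
      ext ω
      simp [Jn]
    rw [this]
    exact MeasurableSet.univ
  | cons q L ih =>
    have : {ω : Om | Jn ({e | ω e = true} ∩ G) (q :: L)} =
        {ω : Om | Cj ({e | ω e = true} ∩ G) q.1 q.2} ∩ {ω : Om | Jn ({e | ω e = true} ∩ G) L} := by
      ext ω
      simp [Jn]
    rw [this]
    exact (meas_Cj G q.1 q.2).inter ih

theorem meas_Ev (G : Set Edg) (A T : Set Vtx) (L : List (Set Vtx × Set Vtx)) :
    MeasurableSet {ω : Om | Ev G ∅ A T L {e | ω e = true}} := by
  unfold Ev
  simp_rw [Set.union_empty]
  exact (meas_Cj G A T).inter (meas_Jn G L)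

open Classical in
/-- `η` in the inner box, `ω'` between the boxes, `ω` outside -/
noncomputable def hh (m R : ℕ) (η : Finset Edg) (p : Om × Om) : Om :=
  fun e => if e ∈ boxE m then decide (e ∈ η) else if e ∈ boxE R then p.2 e else p.1 e

theorem measurable_hh (m R : ℕ) (η : Finset Edg) : Measurable (hh m R η) := by
  apply measurable_pi_lambda
  intro e
  unfold hh
  split_ifs
  · exact measurable_const
  · exact (measurable_pi_apply e).comp measurable_snd
  · exact (measurable_pi_apply e).comp measurable_fst

theorem set_eq {m R : ℕ} (hmR : m ≤ R) (η : Finset Edg) (G : Set Edg) (ω ω' : Om) :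
    (({e | ω' e = true} ∪ PF m R η ω) ∩ GF m R η ω G) = {e | hh m R η (ω, ω') e = true} ∩ G := by
  classical
  ext e
  simp only [Set.mem_inter_iff, Set.mem_union, Set.mem_setOf_eq, PF, GF, hh]
  by_cases h1 : e ∈ boxE m
  · have h2 : e ∈ boxE R := boxE_mono hmR h1
    simp only [h1, h2, if_true, decide_eq_true_eq]
    tauto
  · by_cases h2 : e ∈ boxE R
    · simp only [h1, h2, if_true, if_false]
      tauto
    · simp only [h1, h2, if_false]
      tauto

theorem Ev_iff {m R : ℕ} (hmR : m ≤ R) (η : Finset Edg) (G : Set Edg) (A T : Set Vtx)
    (L : List (Set Vtx × Set Vtx)) (ω ω' : Om) :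
    Ev (GF m R η ω G) (PF m R η ω) A T L {e | ω' e = true} ↔
      Ev G ∅ A T L {e | hh m R η (ω, ω') e = true} := by
  unfold Ev
  rw [set_eq hmR, Set.union_empty]

theorem t_FUB : FUBStm := by
  classical
  intro m R hmR G A T L
  have hEv := meas_Ev G A T L
  -- the product event
  have hBm : ∀ η : Finset Edg, MeasurableSet {p : Om × Om | Ev G ∅ A T L {e | hh m R η p e = true}} :=
    fun η => measurable_hh m R η hEv
  have hPX : ∀ (η : Finset Edg) (ω : Om), PX (GF m R η ω G) (PF m R η ω) A T L =
      (percE (Prod.mk ω ⁻¹' {p : Om × Om | Ev G ∅ A T L {e | hh m R η p e = true}})).toReal := by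
    intro η ω
    unfold PX
    rw [measureReal_def]
    congr 2
    ext ω'
    exact Ev_iff hmR η G A T L ω ω'
  have hmeas : ∀ η : Finset Edg, Measurable fun ω : Om =>
      percE (Prod.mk ω ⁻¹' {p : Om × Om | Ev G ∅ A T L {e | hh m R η p e = true}}) :=
    fun η => measurable_measure_prodMk_left (hBm η)
  refine ⟨fun η => ?_, fun W V hV hVo => ?_⟩
  · refine Integrable.of_bound (C := 1) ?_ ?_
    · simp_rw [hPX η]
      exact (hmeas η).ennreal_toReal.aestronglyMeasurable
    · refine Filter.Eventually.of_forall fun ω => ?_
      unfold PX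
      rw [Real.norm_of_nonneg measureReal_nonneg]
      exact measureReal_le_one
  · -- one cell
    have hcellv : ∀ η ∈ (boxE m).powerset, percE.real (cell (boxE m) η ∩
        (V ∩ {ω : Om | Ev G ∅ A T L {e | ω e = true}})) = (1/2 : ℝ)^(boxE m).card *
          ∫ ω in V, PX (GF m R η ω G) (PF m R η ω) A T L ∂percE := by
      intro η hη
      have hηm := Finset.mem_powerset.1 hη
      have hE : MeasurableSet (cell (boxE m) η ∩ (V ∩ {ω : Om | Ev G ∅ A T L {e | ω e = true}})) :=
        (meas_cell hηm).inter (hV.inter hEv)
      have h1 := (mp_glue (boxE R)).measure_preimage hE.nullMeasurableSet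
      rw [Measure.prod_apply ((measurable_glue _) hE)] at h1
      have h2 : ∀ ω : Om, percE (Prod.mk ω ⁻¹' (glue (boxE R) ⁻¹' (cell (boxE m) η ∩
          (V ∩ {ω : Om | Ev G ∅ A T L {e | ω e = true}})))) =
          V.indicator (fun ω => percE (cell (boxE m) η) * percE (Prod.mk ω ⁻¹'
            {p : Om × Om | Ev G ∅ A T L {e | hh m R η p e = true}})) ω := by
        intro ω
        have e1 : ∀ ω' : Om, op (boxE m) (glue (boxE R) (ω, ω')) = op (boxE m) ω' := by
          intro ω'
          ext e
          rw [mem_op, mem_op]
          unfold glue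
          constructor
          · rintro ⟨ha, hb⟩
            rw [if_pos (boxE_mono hmR ha)] at hb
            exact ⟨ha, hb⟩
          · rintro ⟨ha, hb⟩
            rw [if_pos (boxE_mono hmR ha)]
            exact ⟨ha, hb⟩
        have e2 : ∀ ω' : Om, glue (boxE R) (ω, ω') ∈ V ↔ ω ∈ V := by
          intro ω'
          apply hVo
          intro e he
          unfold glue
          rw [if_neg he]
        have e3 : ∀ ω' : Om, op (boxE m) ω' = η → glue (boxE R) (ω, ω') = hh m R η (ω, ω') := by
          intro ω' ho
          funext e
          unfold glue hh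
          by_cases ha : e ∈ boxE m
          · rw [if_pos (boxE_mono hmR ha), if_pos ha]
            by_cases hb : e ∈ η
            · have hb' := hb
              rw [← ho, mem_op] at hb'
              show ω' e = decide (e ∈ η)
              rw [hb'.2]
              simp [hb]
            · have : ω' e = false := by
                by_contra hc
                apply hb
                rw [← ho, mem_op]
                exact ⟨ha, by simpa using hc⟩
              show ω' e = decide (e ∈ η)
              rw [this]
              simp [hb]
          · rw [if_neg ha]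
        by_cases hω : ω ∈ V
        · rw [Set.indicator_of_mem hω, ← indep (boxE m) η hηm]
          · congr 1
            ext ω'
            constructor
            · rintro ⟨ha, -, hb⟩
              have ha' : op (boxE m) ω' = η := by rw [← e1 ω']; exact ha
              refine ⟨ha', ?_⟩
              show Ev G ∅ A T L {e | hh m R η (ω, ω') e = true}
              rw [← e3 ω' ha']
              exact hb
            · rintro ⟨ha, hb⟩
              have ha' : op (boxE m) ω' = η := ha
              refine ⟨?_, (e2 ω').2 hω, ?_⟩
              · show op (boxE m) (glue (boxE R) (ω, ω')) = η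
                rw [e1 ω', ha']
              · show Ev G ∅ A T L {e | glue (boxE R) (ω, ω') e = true}
                rw [e3 ω' ha']
                exact hb
          · exact measurable_prodMk_left (hBm η)
          · intro ω1 ω2 h12
            have : hh m R η (ω, ω1) = hh m R η (ω, ω2) := by
              funext e
              unfold hh
              by_cases ha : e ∈ boxE m
              · rw [if_pos ha, if_pos ha]
              · rw [if_neg ha, if_neg ha]
                simp only [h12 e ha]
            show Ev G ∅ A T L {e | hh m R η (ω, ω1) e = true} ↔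
              Ev G ∅ A T L {e | hh m R η (ω, ω2) e = true}
            rw [this]
        · rw [Set.indicator_of_notMem hω]
          have : (Prod.mk ω ⁻¹' (glue (boxE R) ⁻¹' (cell (boxE m) η ∩
              (V ∩ {ω : Om | Ev G ∅ A T L {e | ω e = true}})))) = ∅ := by
            ext ω'
            simp only [Set.mem_empty_iff_false, iff_false]
            rintro ⟨-, hb, -⟩
            exact hω ((e2 ω').1 hb)
          rw [this, measure_empty]
      simp_rw [h2] at h1
      rw [lintegral_indicator hV, lintegral_const_mul _ (hmeas η)] at h1
      rw [measureReal_def, ← h1, ENNReal.toReal_mul, ← measureReal_def, percE_cell hηm]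
      congr 1
      simp_rw [hPX η]
      rw [integral_toReal (hmeas η).aemeasurable]
      exact Filter.Eventually.of_forall fun ω => measure_lt_top _ _
    unfold PW
    have hset : {ω : Om | W ((boxE m).filter (fun e => ω e = true)) ∧ ω ∈ V ∧
        Ev G ∅ A T L {e | ω e = true}} = ⋃ η ∈ (boxE m).powerset.filter W,
          (cell (boxE m) η ∩ (V ∩ {ω : Om | Ev G ∅ A T L {e | ω e = true}})) := by
      ext ω
      simp only [Set.mem_iUnion, exists_prop, Finset.mem_filter, Finset.mem_powerset]
      constructor
      · rintro ⟨ha, hb, hc⟩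
        exact ⟨op (boxE m) ω, ⟨Finset.filter_subset _ _, ha⟩, rfl, hb, hc⟩
      · rintro ⟨η, ⟨-, hη⟩, ha, hb, hc⟩
        refine ⟨?_, hb, hc⟩
        have ha' : op (boxE m) ω = η := ha
        show W (op (boxE m) ω)
        rw [ha']
        exact hη
    rw [hset, measureReal_biUnion_finset]
    · apply Finset.sum_congr rfl
      intro η hη
      exact hcellv η (Finset.mem_filter.1 hη).1
    · intro F _ F' _ hne
      apply Set.disjoint_left.2
      intro ω h1 h2
      exact hne (h1.1.symm.trans h2.1)
    · intro η hη
      exact (meas_cell (Finset.mem_powerset.1 (Finset.mem_filter.1 hη).1)).inter (hV.inter hEv)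

end Pool.Agent.U669.SA
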